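import Mathlib

/-!
Polynomial kernels concentrated at one and a Nash inequality for the averaging operator of a
group acting on an infinite set.
-/

set_option autoImplicit false

namespace Pool.Agent.H7.Coset

open Polynomial

/-! ### the polynomials -/

/-- Chebyshev polynomials of the second kind. -/
noncomputable def uu : ℕ → ℝ[X]
  | 0 => 1
  | 1 => 2 * X
  | n + 2 => 2 * X * uu (n + 1) - uu n

/-- Chebyshev polynomials of the first kind. -/
noncomputable def tt : ℕ → ℝ[X]
  | 0 => 1
  | 1 => X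
  | n + 2 => 2 * X * tt (n + 1) - tt n

/-- Dirichlet kernels `1 + 2 ∑ t_j`. -/
noncomputable def dd : ℕ → ℝ[X]
  | 0 => 1
  | n + 1 => uu (n + 1) + uu n

/-- The companion polynomials. -/
noncomputable def rr : ℕ → ℝ[X]
  | 0 => 1
  | n + 1 => uu (n + 1) - uu n

theorem uu_invariant (n : ℕ) : uu (n + 1) ^ 2 + uu n ^ 2 - 2 * X * (uu (n + 1) * uu n) = 1 := by
  induction n with
  | zero => simp only [uu]; ring
  | succ n ih =>
    have h : uu (n + 2) = 2 * X * uu (n + 1) - uu n := rfl
    rw [h]
    linear_combination ih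

theorem dd_rr (n : ℕ) : (1 - X) * dd n ^ 2 + (1 + X) * rr n ^ 2 = 2 := by
  cases n with
  | zero => simp only [dd, rr]; ring
  | succ n =>
    simp only [dd, rr]
    linear_combination 2 * uu_invariant n

theorem tt_uu (n : ℕ) : tt (n + 2) = X * uu (n + 1) - uu n ∧ tt (n + 1) = X * uu n -
    (if n = 0 then 0 else uu (n - 1)) := by
  induction n with
  | zero =>
    simp only [tt, uu]
    constructor
    · ring
    · simp
  | succ n ih =>
    refine ⟨?_, ?_⟩
    · have h : tt (n + 1 + 2) = 2 * X * tt (n + 2) - tt (n + 1) := rfl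
      rw [h, ih.1, ih.2]
      cases n with
      | zero => simp [uu]; ring
      | succ n =>
        simp only [Nat.add_eq_zero_iff, one_ne_zero, and_false, if_false, Nat.add_sub_cancel]
        have h1 : uu (n + 1 + 1 + 1) = 2 * X * uu (n + 1 + 1) - uu (n + 1) := rfl
        have h2 : uu (n + 1 + 1) = 2 * X * uu (n + 1) - uu n := rfl
        rw [h1, h2]
        ring
    · rw [show n + 1 + 1 = n + 2 from rfl, ih.1]
      simp

theorem one_sub_tt (n : ℕ) : 1 - tt (n + 1) ^ 2 = (1 - X ^ 2) * uu n ^ 2 := by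
  cases n with
  | zero => simp only [tt, uu]; ring
  | succ n =>
    rw [(tt_uu n).1]
    linear_combination -uu_invariant n

theorem dd_succ (n : ℕ) : dd (n + 1) = dd n + 2 * tt (n + 1) := by
  cases n with
  | zero => simp only [dd, tt, uu]; ring
  | succ n =>
    rw [(tt_uu n).1]
    have h : uu (n + 1 + 1) = 2 * X * uu (n + 1) - uu n := rfl
    simp only [dd]
    rw [h]
    ring

theorem uu_natDegree (n : ℕ) : (uu n).natDegree ≤ n := by
  induction n using Nat.twoStepInduction with
  | zero => simp [uu]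
  | one =>
    simp only [uu]
    compute_degree
  | more n ih1 ih2 =>
    simp only [uu]
    refine (natDegree_sub_le _ _).trans (max_le ?_ (by omega))
    refine natDegree_mul_le.trans ?_
    have : (2 * X : ℝ[X]).natDegree ≤ 1 := by compute_degree
    omega

theorem dd_natDegree (n : ℕ) : (dd n).natDegree ≤ n := by
  cases n with
  | zero => simp [dd]
  | succ n =>
    simp only [dd]
    exact (natDegree_add_le _ _).trans (max_le (uu_natDegree _) ((uu_natDegree n).trans (by omega)))

theorem uu_eval_one (n : ℕ) : (uu n).eval 1 = n + 1 := by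
  induction n using Nat.twoStepInduction with
  | zero => simp [uu]
  | one => simp [uu]; norm_num
  | more n ih1 ih2 =>
    simp only [uu, eval_sub, eval_mul, eval_X, eval_ofNat, ih1, ih2]
    push_cast
    ring

theorem dd_eval_one (n : ℕ) : (dd n).eval 1 = 2 * n + 1 := by
  cases n with
  | zero => simp [dd]
  | succ n =>
    simp only [dd, eval_add, uu_eval_one]
    push_cast
    ring

/-! ### finitely supported functions -/

section Op

variable {G Ω : Type*} [Group G] [MulAction G Ω]

/-- The inner product of finitely supported functions. -/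
noncomputable def ip : (Ω →₀ ℝ) →ₗ[ℝ] (Ω →₀ ℝ) →ₗ[ℝ] ℝ :=
  LinearMap.mk₂ ℝ (fun f g => f.sum fun x a => a * g x)
    (fun f f' g => Finsupp.sum_add_index' (fun _ => by simp) (fun _ _ _ => by ring))
    (fun c f g => by
      rw [Finsupp.sum_smul_index (fun _ => by simp), Finsupp.smul_sum]
      exact Finsupp.sum_congr fun x _ => by simp [mul_assoc])
    (fun f g g' => by
      rw [← Finsupp.sum_add]
      exact Finsupp.sum_congr fun x _ => by simp [mul_add])
    (fun c f g => by
      rw [Finsupp.smul_sum]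
      exact Finsupp.sum_congr fun x _ => by simp [mul_left_comm])

theorem ip_apply (f g : Ω →₀ ℝ) : ip f g = f.sum fun x a => a * g x := rfl

theorem ip_single_left (x : Ω) (a : ℝ) (g : Ω →₀ ℝ) : ip (Finsupp.single x a) g = a * g x := by
  rw [ip_apply, Finsupp.sum_single_index (by simp)]

theorem ip_eq_sum (f g : Ω →₀ ℝ) (s : Finset Ω) (h : f.support ⊆ s) :
    ip f g = ∑ x ∈ s, f x * g x := by
  rw [ip_apply, Finsupp.sum_of_support_subset _ h _ (fun _ _ => by simp)]

theorem ip_comm (f g : Ω →₀ ℝ) : ip f g = ip g f := by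
  classical
  rw [ip_eq_sum f g (f.support ∪ g.support) Finset.subset_union_left,
    ip_eq_sum g f (f.support ∪ g.support) Finset.subset_union_right]
  exact Finset.sum_congr rfl fun x _ => mul_comm _ _

theorem ip_self (f : Ω →₀ ℝ) (s : Finset Ω) (h : f.support ⊆ s) :
    ip f f = ∑ x ∈ s, f x ^ 2 := by
  rw [ip_eq_sum f f s h]
  exact Finset.sum_congr rfl fun x _ => by ring

theorem ip_self_nonneg (f : Ω →₀ ℝ) : 0 ≤ ip f f := by
  rw [ip_self f _ subset_rfl]
  exact Finset.sum_nonneg fun x _ => sq_nonneg _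

/-- Translation by a group element: `(trf g f) x = f (g • x)`. -/
noncomputable def trf (g : G) : (Ω →₀ ℝ) →ₗ[ℝ] (Ω →₀ ℝ) :=
  (Finsupp.domLCongr (MulAction.toPerm g⁻¹ : Equiv.Perm Ω) : (Ω →₀ ℝ) ≃ₗ[ℝ] (Ω →₀ ℝ)).toLinearMap

theorem trf_apply (g : G) (f : Ω →₀ ℝ) (x : Ω) : trf g f x = f (g • x) := by
  simp [trf]

theorem trf_single (g : G) (x : Ω) (a : ℝ) :
    trf g (Finsupp.single x a) = Finsupp.single (g⁻¹ • x) a := by
  simp [trf]

theorem ip_trf (g : G) (f h : Ω →₀ ℝ) : ip (trf g f) h = ip f (trf g⁻¹ h) := by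
  induction f using Finsupp.induction_linear with
  | zero => simp
  | add f f' h1 h2 => rw [map_add, map_add, map_add, LinearMap.add_apply, LinearMap.add_apply, h1, h2]
  | single x a => rw [trf_single, ip_single_left, ip_single_left, trf_apply]

theorem trf_trf_inv (g : G) (f : Ω →₀ ℝ) : trf g⁻¹ (trf g f) = f := by
  ext x
  rw [trf_apply, trf_apply, smul_inv_smul]

/-- The averaging operator. -/
noncomputable def avg (S : Finset G) : (Ω →₀ ℝ) →ₗ[ℝ] (Ω →₀ ℝ) :=
  (1 / (2 * S.card : ℝ)) • ∑ s ∈ S, (trf s + trf s⁻¹)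

theorem avg_apply (S : Finset G) (f : Ω →₀ ℝ) (x : Ω) :
    avg S f x = (1 / (2 * S.card : ℝ)) * ∑ s ∈ S, (f (s • x) + f (s⁻¹ • x)) := by
  simp only [avg, LinearMap.smul_apply, LinearMap.sum_apply, LinearMap.add_apply,
    Finsupp.smul_apply, Finsupp.coe_finsetSum, Finset.sum_apply, Finsupp.add_apply, trf_apply,
    smul_eq_mul]

theorem ip_avg (S : Finset G) (f h : Ω →₀ ℝ) : ip (avg S f) h = ip f (avg S h) := by
  simp only [avg, LinearMap.smul_apply, LinearMap.sum_apply, LinearMap.add_apply, map_smul,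
    map_sum, map_add]
  congr 1
  refine Finset.sum_congr rfl fun s _ => ?_
  rw [ip_trf, ip_trf, inv_inv, add_comm]

theorem ip_aeval (S : Finset G) (q : ℝ[X]) (f h : Ω →₀ ℝ) :
    ip (aeval (avg S) q f) h = ip f (aeval (avg S) q h) := by
  induction q using Polynomial.induction_on' with
  | add p q hp hq => simp only [map_add, LinearMap.add_apply, hp, hq]
  | monomial n a =>
    simp only [aeval_monomial, Module.End.mul_apply, Module.algebraMap_end_apply, map_smul,
      LinearMap.smul_apply]
    congr 1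
    induction n generalizing f h with
    | zero => simp
    | succ n ih =>
      have e1 : (avg S ^ (n + 1)) f = avg S ((avg S ^ n) f) := by rw [pow_succ']; rfl
      have e2 : (avg S ^ (n + 1)) h = (avg S ^ n) (avg S h) := by rw [pow_succ]; rfl
      rw [e1, e2, ip_avg, ih]

theorem aeval_mul_apply (S : Finset G) (p q : ℝ[X]) (f : Ω →₀ ℝ) :
    aeval (avg S) (p * q) f = aeval (avg S) p (aeval (avg S) q f) := by
  rw [map_mul, Module.End.mul_apply]

/-- The moment functional. -/
theorem ip_aeval_mul (S : Finset G) (p q : ℝ[X]) (f : Ω →₀ ℝ) :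
    ip (aeval (avg S) (p * q) f) f = ip (aeval (avg S) q f) (aeval (avg S) p f) := by
  rw [aeval_mul_apply, ip_aeval]

theorem two_ip_le (a b : Ω →₀ ℝ) (c : ℝ) (hc : 0 < c) :
    2 * ip a b ≤ ip a a / c + c * ip b b := by
  have h := ip_self_nonneg (a - c • b)
  simp only [map_sub, map_smul, LinearMap.sub_apply, LinearMap.smul_apply, smul_eq_mul] at h
  rw [ip_comm b a] at h
  rw [div_add' _ _ _ hc.ne', le_div_iff₀ hc]
  nlinarith

theorem ip_add_self_le (a b : Ω →₀ ℝ) (c : ℝ) (hc : 0 < c) :
    ip (a + b) (a + b) ≤ (1 + 1 / c) * ip a a + (1 + c) * ip b b := by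
  have h := two_ip_le a b c hc
  simp only [map_add, LinearMap.add_apply]
  rw [ip_comm b a]
  have : (1 + 1 / c) * ip a a = ip a a + ip a a / c := by ring
  rw [this]
  linarith

theorem ip_trf_self (g : G) (f : Ω →₀ ℝ) : ip (trf g f) (trf g f) = ip f f := by
  rw [ip_trf, trf_trf_inv]

theorem two_ip_avg_le (S : Finset G) (f g : Ω →₀ ℝ) :
    2 * ip (avg S f) g ≤ ip f f + ip g g := by
  have key : ∀ s : G, 2 * ip (trf s f) g ≤ ip f f + ip g g := by
    intro s
    have h := two_ip_le (trf s f) g 1 one_pos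
    rw [ip_trf_self, div_one, one_mul] at h
    exact h
  rcases S.eq_empty_or_nonempty with h | h
  · subst h
    simp only [avg, Finset.sum_empty, smul_zero, LinearMap.zero_apply, map_zero, mul_zero]
    exact add_nonneg (ip_self_nonneg _) (ip_self_nonneg _)
  · have hn : (0 : ℝ) < S.card := by exact_mod_cast h.card_pos
    simp only [avg, LinearMap.smul_apply, LinearMap.sum_apply, LinearMap.add_apply, map_smul,
      map_sum, map_add, smul_eq_mul]
    have h1 : ∑ s ∈ S, (ip (trf s f) g + ip (trf s⁻¹ f) g) ≤ ∑ _s ∈ S, (ip f f + ip g g) :=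
      Finset.sum_le_sum fun s _ => by linarith [key s, key s⁻¹]
    rw [Finset.sum_const, nsmul_eq_mul] at h1
    calc 2 * (1 / (2 * (S.card : ℝ)) * ∑ s ∈ S, (ip (trf s f) g + ip (trf s⁻¹ f) g))
        ≤ 2 * (1 / (2 * (S.card : ℝ)) * (S.card * (ip f f + ip g g))) := by gcongr
      _ = ip f f + ip g g := by field_simp

theorem ip_avg_self_le (S : Finset G) (f : Ω →₀ ℝ) : ip (avg S f) (avg S f) ≤ ip f f := by
  have := two_ip_avg_le S f (avg S f)
  linarith

theorem neg_ip_avg_le (S : Finset G) (f : Ω →₀ ℝ) : 0 ≤ ip (avg S f) f + ip f f := by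
  have := two_ip_avg_le S (-f) f
  simp only [map_neg, LinearMap.neg_apply, neg_neg] at this
  linarith

theorem ip_tt_le (S : Finset G) (n : ℕ) (f : Ω →₀ ℝ) :
    ip (aeval (avg S) (tt n) f) (aeval (avg S) (tt n) f) ≤ ip f f := by
  cases n with
  | zero => simp [tt]
  | succ n =>
    have h1 : ip f f - ip (aeval (avg S) (tt (n + 1)) f) (aeval (avg S) (tt (n + 1)) f) =
        ip (aeval (avg S) (1 - tt (n + 1) ^ 2) f) f := by
      rw [← ip_aeval_mul, map_sub, LinearMap.sub_apply, map_sub, LinearMap.sub_apply, map_one,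
        Module.End.one_apply, sq]
    have h2 : ip (aeval (avg S) (1 - tt (n + 1) ^ 2) f) f =
        ip (aeval (avg S) (uu n) f) (aeval (avg S) (uu n) f) -
          ip (avg S (aeval (avg S) (uu n) f)) (avg S (aeval (avg S) (uu n) f)) := by
      have h3 : avg S (aeval (avg S) (uu n) f) = aeval (avg S) (X * uu n) f := by
        rw [aeval_mul_apply, aeval_X]
      have e : (1 - X ^ 2) * uu n ^ 2 = uu n * uu n - X * uu n * (X * uu n) := by ring
      rw [h3, ← ip_aeval_mul, ← ip_aeval_mul, one_sub_tt, e, map_sub, LinearMap.sub_apply, map_sub,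
        LinearMap.sub_apply]
    have h3 := ip_avg_self_le S (aeval (avg S) (uu n) f)
    linarith

theorem ip_dd_le (S : Finset G) (n : ℕ) (f : Ω →₀ ℝ) :
    ip (aeval (avg S) (dd n) f) (aeval (avg S) (dd n) f) ≤ (2 * n + 1) ^ 2 * ip f f := by
  induction n with
  | zero => simp [dd]
  | succ n ih =>
    have h1 := ip_tt_le S (n + 1) f
    have h2 : aeval (avg S) (dd (n + 1)) f =
        aeval (avg S) (dd n) f + (2 : ℝ) • aeval (avg S) (tt (n + 1)) f := by
      rw [dd_succ, map_add, LinearMap.add_apply, two_mul, map_add, LinearMap.add_apply, two_smul]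
    have hc : (0 : ℝ) < (2 * n + 1) / 2 := by positivity
    have h3 := ip_add_self_le (aeval (avg S) (dd n) f) ((2 : ℝ) • aeval (avg S) (tt (n + 1)) f) _ hc
    rw [← h2] at h3
    simp only [map_smul, LinearMap.smul_apply, smul_eq_mul] at h3
    have h4 : 0 ≤ ip f f := ip_self_nonneg f
    have h5 : (1 + 1 / ((2 * (n : ℝ) + 1) / 2)) * ((2 * n + 1) ^ 2 * ip f f) +
        (1 + (2 * n + 1) / 2) * (2 * (2 * ip f f)) = (2 * ((n + 1 : ℕ) : ℝ) + 1) ^ 2 * ip f f := by
      push_cast
      field_simp
      ring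
    rw [← h5]
    refine h3.trans ?_
    gcongr

/-- The Dirichlet energy. -/
theorem energy_eq (S : Finset G) (hS : S.Nonempty) (f : Ω →₀ ℝ) :
    ∑ s ∈ S, ip (f - trf s f) (f - trf s f) = 2 * S.card * (ip f f - ip (avg S f) f) := by
  have hn : (S.card : ℝ) ≠ 0 := by exact_mod_cast hS.card_pos.ne'
  have h1 : ∀ s ∈ S, ip (f - trf s f) (f - trf s f) =
      2 * ip f f - (ip (trf s f) f + ip (trf s⁻¹ f) f) := by
    intro s _
    have h2 : ip (trf s⁻¹ f) f = ip (trf s f) f := by
      rw [ip_trf, inv_inv, ip_comm]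
    rw [h2]
    simp only [map_sub, LinearMap.sub_apply]
    rw [ip_trf_self, ip_comm f (trf s f)]
    ring
  rw [Finset.sum_congr rfl h1, Finset.sum_sub_distrib, Finset.sum_const, nsmul_eq_mul]
  simp only [avg, LinearMap.smul_apply, LinearMap.sum_apply, LinearMap.add_apply, map_smul,
      map_sum, map_add, smul_eq_mul]
  field_simp

/-! ### shortest paths and the Nash inequality -/

theorem exists_minimal_path {Ω : Type*} (R : Ω → Ω → Prop) (Z : Set Ω) (x : Ω)
    (h : ∃ z ∈ Z, Relation.ReflTransGen R x z) :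
    ∃ (n : ℕ) (p : ℕ → Ω), p 0 = x ∧ p n ∈ Z ∧ (∀ i < n, R (p i) (p (i + 1))) ∧
      ∀ i j, i < j → j ≤ n → p i ≠ p j := by
  classical
  have hex : ∃ n : ℕ, ∃ p : ℕ → Ω, p 0 = x ∧ p n ∈ Z ∧ ∀ i < n, R (p i) (p (i + 1)) := by
    obtain ⟨z, hz, hxz⟩ := h
    have : ∀ y, Relation.ReflTransGen R x y →
        ∃ n : ℕ, ∃ p : ℕ → Ω, p 0 = x ∧ p n = y ∧ ∀ i < n, R (p i) (p (i + 1)) := by
      intro y hy
      induction hy with
      | refl => exact ⟨0, fun _ => x, rfl, rfl, fun i hi => absurd hi (Nat.not_lt_zero i)⟩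
      | @tail b c _ hbc ih =>
        obtain ⟨n, p, h0, hn, hp⟩ := ih
        refine ⟨n + 1, fun i => if i ≤ n then p i else c, by simp [h0], by simp, ?_⟩
        intro i hi
        by_cases h1 : i < n
        · simp only [if_pos (show i ≤ n by omega), if_pos (show i + 1 ≤ n by omega)]
          exact hp i h1
        · have h2 : i = n := by omega
          subst h2
          simp only [le_refl, if_true, if_neg (show ¬ i + 1 ≤ i by omega), hn]
          exact hbc
    obtain ⟨n, p, h0, hn, hp⟩ := this z hxz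
    exact ⟨n, p, h0, hn ▸ hz, hp⟩
  obtain ⟨p, h0, hn, hp⟩ := Nat.find_spec hex
  refine ⟨Nat.find hex, p, h0, hn, hp, fun i j hij hj hpij => ?_⟩
  refine Nat.find_min hex (m := Nat.find hex - (j - i)) (by omega)
    ⟨fun k => if k ≤ i then p k else p (k + (j - i)), by simp [h0], ?_, ?_⟩
  · by_cases h1 : Nat.find hex - (j - i) ≤ i
    · have h2 : Nat.find hex = j := by omega
      simp only [if_pos h1]
      rw [show Nat.find hex - (j - i) = i by omega, hpij, ← h2]
      exact hn
    · simp only [if_neg h1]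
      rw [show Nat.find hex - (j - i) + (j - i) = Nat.find hex by omega]
      exact hn
  · intro k hk
    by_cases h1 : k + 1 ≤ i
    · simp only [if_pos (show k ≤ i by omega), if_pos h1]
      exact hp k (by omega)
    · by_cases h2 : k = i
      · subst h2
        simp only [le_refl, if_true, if_neg h1]
        rw [hpij, show k + 1 + (j - k) = j + 1 by omega]
        exact hp j (by omega)
      · simp only [if_neg (show ¬ k ≤ i by omega), if_neg h1]
        rw [show k + 1 + (j - i) = k + (j - i) + 1 by omega]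
        exact hp _ (by omega)

/-- One dimensional Nash inequality. -/
theorem nash (S : Finset G) [Infinite Ω]
    (hconn : ∀ x y : Ω, Relation.ReflTransGen (fun a b => ∃ s ∈ S, b = s • a ∨ a = s • b) x y)
    (f : Ω →₀ ℝ) (x : Ω) :
    f x ^ 4 ≤ 8 * S.card * (ip f f - ip (avg S f) f) * ip f f := by
  classical
  obtain ⟨z, hz⟩ := Infinite.exists_notMem_finset f.support
  obtain ⟨n, p, h0, hn, hp, hinj⟩ := exists_minimal_path _ {z | f z = 0} x
    ⟨z, by simpa using hz, hconn x z⟩
  have hinj' : ∀ i j, i ≤ n → j ≤ n → p i = p j → i = j := by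
    intro i j hi hj h
    rcases lt_trichotomy i j with h1 | h1 | h1
    · exact absurd h (hinj i j h1 hj)
    · exact h1
    · exact absurd h.symm (hinj j i h1 hi)
  rcases Nat.eq_zero_or_pos n with hn0 | hn0
  · subst hn0
    rw [h0] at hn
    have hfx : f x = 0 := hn
    rw [hfx]
    have hS' : 0 ≤ (S.card : ℝ) := by positivity
    have h1 : 0 ≤ ip f f - ip (avg S f) f := by
      have := two_ip_avg_le S f f
      linarith
    have h2 := ip_self_nonneg f
    norm_num
    positivity
  have hS : S.Nonempty := by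
    obtain ⟨s, hs, -⟩ := hp 0 hn0
    exact ⟨s, hs⟩
  -- edges
  choose! s hs hsp using hp
  let b : ℕ → Ω := fun i => if p (i + 1) = s i • p i then p i else p (i + 1)
  have hb : ∀ i < n, (f (p i) - f (p (i + 1))) ^ 2 = (f (b i) - f (s i • b i)) ^ 2 := by
    intro i hi
    by_cases h : p (i + 1) = s i • p i
    · simp only [b, if_pos h, h]
    · have h1 : p i = s i • p (i + 1) := (hsp i hi).resolve_left h
      simp only [b, if_neg h]
      rw [← h1]
      ring
  have hbmem : ∀ i < n, (b i = p i ∧ s i • b i = p (i + 1)) ∨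
      (b i = p (i + 1) ∧ s i • b i = p i) := by
    intro i hi
    by_cases h : p (i + 1) = s i • p i
    · left
      simp only [b, if_pos h, h, and_self]
    · right
      have h1 : p i = s i • p (i + 1) := (hsp i hi).resolve_left h
      simp only [b, if_neg h, ← h1, and_self]
  have hbinj : ∀ i < n, ∀ j < n, s i = s j → b i = b j → i = j := by
    intro i hi j hj h1 h2
    have h3 : s i • b i = s j • b j := by rw [h1, h2]
    rcases hbmem i hi with ⟨a1, a2⟩ | ⟨a1, a2⟩ <;> rcases hbmem j hj with ⟨b1, b2⟩ | ⟨b1, b2⟩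
    · exact hinj' i j hi.le hj.le (by rw [← a1, ← b1, h2])
    · have e1 := hinj' i (j + 1) hi.le hj (by rw [← a1, ← b1, h2])
      have e2 := hinj' (i + 1) j hi hj.le (by rw [← a2, ← b2, h3])
      omega
    · have e1 := hinj' (i + 1) j hi hj.le (by rw [← a1, ← b1, h2])
      have e2 := hinj' i (j + 1) hi.le hj (by rw [← a2, ← b2, h3])
      omega
    · exact hinj' i j hi.le hj.le (by rw [← a2, ← b2, h3])
  -- the energy bound
  have henergy : ∑ i ∈ Finset.range n, (f (p i) - f (p (i + 1))) ^ 2 ≤
      2 * S.card * (ip f f - ip (avg S f) f) := by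
    rw [← energy_eq S hS f]
    -- a finite set containing everything
    let T : Finset Ω := (Finset.range n).image b ∪ (S.biUnion fun s => (f - trf s f).support)
    have h1 : ∀ t ∈ S, ip (f - trf t f) (f - trf t f) = ∑ x ∈ T, (f x - f (t • x)) ^ 2 := by
      intro t ht
      rw [ip_self _ T]
      · exact Finset.sum_congr rfl fun x _ => by rw [Finsupp.sub_apply, trf_apply]
      · intro x hx
        exact Finset.mem_union_right _ (Finset.mem_biUnion.2 ⟨t, ht, hx⟩)
    rw [Finset.sum_congr rfl h1, ← Finset.sum_product']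
    have h2 : ∑ i ∈ Finset.range n, (f (p i) - f (p (i + 1))) ^ 2 =
        ∑ q ∈ (Finset.range n).image (fun i => (s i, b i)), (f q.2 - f (q.1 • q.2)) ^ 2 := by
      rw [Finset.sum_image]
      · exact Finset.sum_congr rfl fun i hi => hb i (Finset.mem_range.1 hi)
      · intro i hi j hj hij
        rw [Prod.mk.injEq] at hij
        exact hbinj i (by simpa using hi) j (by simpa using hj) hij.1 hij.2
    rw [h2]
    refine Finset.sum_le_sum_of_subset_of_nonneg ?_ fun _ _ _ => sq_nonneg _
    intro q hq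
    obtain ⟨i, hi, rfl⟩ := Finset.mem_image.1 hq
    exact Finset.mem_product.2 ⟨hs i (Finset.mem_range.1 hi),
      Finset.mem_union_left _ (Finset.mem_image_of_mem _ hi)⟩
  -- the mass bound
  have hmass : ∑ i ∈ Finset.range n, (f (p i) + f (p (i + 1))) ^ 2 ≤ 4 * ip f f := by
    have h1 : ∀ q : ℕ → ℕ, (∀ i < n, q i ≤ n) → (∀ i < n, ∀ j < n, q i = q j → i = j) →
        ∑ i ∈ Finset.range n, f (p (q i)) ^ 2 ≤ ip f f := by
      intro q hq1 hq2
      let T : Finset Ω := (Finset.range n).image (fun i => p (q i)) ∪ f.support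
      rw [ip_self f T Finset.subset_union_right]
      have h2 : ∑ i ∈ Finset.range n, f (p (q i)) ^ 2 =
          ∑ y ∈ (Finset.range n).image (fun i => p (q i)), f y ^ 2 := by
        rw [Finset.sum_image]
        intro i hi j hj hij
        have hi' : i < n := by simpa using hi
        have hj' : j < n := by simpa using hj
        exact hq2 i hi' j hj' (hinj' _ _ (hq1 i hi') (hq1 j hj') hij)
      rw [h2]
      exact Finset.sum_le_sum_of_subset_of_nonneg Finset.subset_union_left
        fun _ _ _ => sq_nonneg _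
    have h2 := h1 (fun i => i) (fun i hi => hi.le) (fun i _ j _ h => h)
    have h3 := h1 (fun i => i + 1) (fun i hi => hi) (fun i _ j _ h => by simpa using h)
    have h4 : ∑ i ∈ Finset.range n, (f (p i) + f (p (i + 1))) ^ 2 ≤
        ∑ i ∈ Finset.range n, (2 * f (p i) ^ 2 + 2 * f (p (i + 1)) ^ 2) :=
      Finset.sum_le_sum fun i _ => by nlinarith [sq_nonneg (f (p i) - f (p (i + 1)))]
    rw [Finset.sum_add_distrib, ← Finset.mul_sum, ← Finset.mul_sum] at h4
    linarith
  -- telescoping
  have htel : ∑ i ∈ Finset.range n, (f (p i) - f (p (i + 1))) * (f (p i) + f (p (i + 1))) =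
      f x ^ 2 := by
    have h1 : ∀ i ∈ Finset.range n, (f (p i) - f (p (i + 1))) * (f (p i) + f (p (i + 1))) =
        (fun i => f (p i) ^ 2) i - (fun i => f (p i) ^ 2) (i + 1) := fun i _ => by ring
    rw [Finset.sum_congr rfl h1, Finset.sum_range_sub']
    have h2 : f (p n) = 0 := hn
    simp only [h0, h2]
    ring
  have hcs := Finset.sum_mul_sq_le_sq_mul_sq (Finset.range n)
    (fun i => f (p i) - f (p (i + 1))) (fun i => f (p i) + f (p (i + 1)))
  rw [htel] at hcs
  calc f x ^ 4 = (f x ^ 2) ^ 2 := by ring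
    _ ≤ _ := hcs
    _ ≤ (2 * S.card * (ip f f - ip (avg S f) f)) * (4 * ip f f) := by
        refine mul_le_mul henergy hmass (Finset.sum_nonneg fun _ _ => sq_nonneg _) ?_
        have h1 : 0 ≤ ip f f - ip (avg S f) f := by
          have := two_ip_avg_le S f f
          linarith
        positivity
    _ = _ := by ring

/-- The diagonal values of the kernel. -/
theorem kernel_diag (S : Finset G) [Infinite Ω]
    (hconn : ∀ x y : Ω, Relation.ReflTransGen (fun a b => ∃ s ∈ S, b = s • a ∨ a = s • b) x y)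
    (n : ℕ) (x : Ω) :
    ip (aeval (avg S) (dd n) (Finsupp.single x 1)) (aeval (avg S) (dd n) (Finsupp.single x 1)) ≤
      4 * Real.sqrt S.card * (2 * n + 1) := by
  set δ : Ω →₀ ℝ := Finsupp.single x 1 with hδ
  set h := aeval (avg S) (dd n) δ with hh
  set f := aeval (avg S) (dd n) h with hf
  set a := ip h h with ha
  have ha0 : 0 ≤ a := ip_self_nonneg h
  have hff : f = aeval (avg S) (dd n * dd n) δ := by rw [hf, hh, ← aeval_mul_apply]
  have hfx : f x = a := by
    have h1 : ip f δ = f x := by rw [ip_comm, hδ, ip_single_left, one_mul]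
    rw [← h1, hff, ip_aeval_mul]
  have hN : ip f f ≤ (2 * n + 1) ^ 2 * a := ip_dd_le S n h
  have hE : ip f f - ip (avg S f) f ≤ 2 * a := by
    have h1 : ip f f - ip (avg S f) f = ip (aeval (avg S) ((1 - X) * (dd n * dd n)) h) h := by
      have e1 : ip f f = ip (aeval (avg S) (dd n * dd n) h) h := (ip_aeval_mul S _ _ h).symm
      have e2 : ip (avg S f) f = ip (aeval (avg S) (dd n * (X * dd n)) h) h := by
        rw [ip_aeval_mul, aeval_mul_apply, aeval_X]
      have e3 : (1 - X) * (dd n * dd n) = dd n * dd n - dd n * (X * dd n) := by ring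
      rw [e1, e2, e3, map_sub, LinearMap.sub_apply, map_sub, LinearMap.sub_apply]
    have h2 : (1 - X) * (dd n * dd n) = C 2 - rr n * rr n - rr n * (X * rr n) := by
      have := dd_rr n
      have h3 : (C 2 : ℝ[X]) = 2 := rfl
      rw [h3]
      linear_combination this
    rw [h1, h2, map_sub, map_sub, LinearMap.sub_apply, LinearMap.sub_apply, map_sub, map_sub,
      LinearMap.sub_apply, LinearMap.sub_apply, ip_aeval_mul, ip_aeval_mul, aeval_mul_apply S X,
      aeval_X, aeval_C, Module.algebraMap_end_apply, map_smul, LinearMap.smul_apply, smul_eq_mul]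
    have h3 := neg_ip_avg_le S (aeval (avg S) (rr n) h)
    linarith
  have hnash := nash S hconn f x
  rw [hfx] at hnash
  have h1 : a ^ 4 ≤ 8 * S.card * (2 * a) * ((2 * n + 1) ^ 2 * a) := by
    refine hnash.trans ?_
    have := ip_self_nonneg f
    gcongr
  rcases eq_or_lt_of_le ha0 with h0 | h0
  · rw [← h0]
    positivity
  · have h2 : a ^ 2 ≤ (4 * Real.sqrt S.card * (2 * n + 1)) ^ 2 := by
      rw [mul_pow, mul_pow, Real.sq_sqrt (by positivity)]
      have h3 : a ^ 2 * a ^ 2 ≤ (4 ^ 2 * S.card * (2 * n + 1) ^ 2) * a ^ 2 := by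
        calc a ^ 2 * a ^ 2 = a ^ 4 := by ring
          _ ≤ _ := h1
          _ = _ := by ring
      exact le_of_mul_le_mul_right h3 (by positivity)
    exact (abs_le_of_sq_le_sq' h2 (by positivity)).2

/-- All values of the kernel. -/
theorem kernel_bound (S : Finset G) [Infinite Ω]
    (hconn : ∀ x y : Ω, Relation.ReflTransGen (fun a b => ∃ s ∈ S, b = s • a ∨ a = s • b) x y)
    (n : ℕ) (x y : Ω) :
    |aeval (avg S) (dd n * dd n) (Finsupp.single y 1) x| ≤
      4 * Real.sqrt S.card * (2 * n + 1) := by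
  have h1 : aeval (avg S) (dd n * dd n) (Finsupp.single y (1 : ℝ)) x =
      ip (aeval (avg S) (dd n) (Finsupp.single y 1)) (aeval (avg S) (dd n) (Finsupp.single x 1)) := by
    rw [← ip_aeval, ← aeval_mul_apply, ip_comm, ip_single_left, one_mul]
  have hx := kernel_diag S hconn n x
  have hy := kernel_diag S hconn n y
  have h2 := two_ip_le (aeval (avg S) (dd n) (Finsupp.single y 1))
    (aeval (avg S) (dd n) (Finsupp.single x 1)) 1 one_pos
  have h3 := two_ip_le (-(aeval (avg S) (dd n) (Finsupp.single y 1)))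
    (aeval (avg S) (dd n) (Finsupp.single x 1)) 1 one_pos
  simp only [map_neg, LinearMap.neg_apply, neg_neg] at h3
  rw [h1, abs_le]
  constructor <;> linarith

end Op

/-! ### functions on the group -/

section Fun

variable {G : Type*} [Group G]

/-- The averaging operator on functions on the group. -/
noncomputable def avgG (S : Finset G) : (G → ℝ) →ₗ[ℝ] (G → ℝ) where
  toFun φ := fun u => (1 / (2 * S.card : ℝ)) * ∑ s ∈ S, (φ (s * u) + φ (s⁻¹ * u))
  map_add' φ ψ := by
    funext u
    simp only [Pi.add_apply]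
    rw [← mul_add, ← Finset.sum_add_distrib]
    congr 1
    exact Finset.sum_congr rfl fun s _ => by ring
  map_smul' c φ := by
    funext u
    simp only [Pi.smul_apply, smul_eq_mul, RingHom.id_apply]
    rw [mul_left_comm]
    congr 1
    rw [Finset.mul_sum]
    exact Finset.sum_congr rfl fun s _ => by ring

/-- Pull back of a finitely supported function along an orbit map. -/
noncomputable def orb {Ω : Type*} [MulAction G Ω] (x : Ω) : (Ω →₀ ℝ) →ₗ[ℝ] (G → ℝ) where
  toFun f := fun u => f (u • x)
  map_add' _ _ := rfl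
  map_smul' _ _ := rfl

theorem avgG_orb {Ω : Type*} [MulAction G Ω] (S : Finset G) (x : Ω) (f : Ω →₀ ℝ) :
    avgG S (orb x f) = orb x (avg S f) := by
  funext u
  change (1 / (2 * S.card : ℝ)) * ∑ s ∈ S, (f ((s * u) • x) + f ((s⁻¹ * u) • x)) =
    avg S f (u • x)
  rw [avg_apply]
  simp only [mul_smul]

theorem aeval_avgG_orb {Ω : Type*} [MulAction G Ω] (S : Finset G) (x : Ω) (q : ℝ[X])
    (f : Ω →₀ ℝ) : aeval (avgG S) q (orb x f) = orb x (aeval (avg S) q f) := by
  induction q using Polynomial.induction_on' with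
  | add p q hp hq => simp only [map_add, LinearMap.add_apply, hp, hq]
  | monomial n a =>
    simp only [aeval_monomial, Module.End.mul_apply, Module.algebraMap_end_apply, map_smul]
    congr 1
    induction n with
    | zero => simp
    | succ n ih =>
      rw [pow_succ', Module.End.mul_apply, ih, avgG_orb, pow_succ', Module.End.mul_apply]

/-- Words of bounded length. -/
def InBall (S : Finset G) (r : ℕ) (u : G) : Prop :=
  ∃ l : List G, l.length ≤ r ∧ (∀ x ∈ l, x ∈ S ∨ x⁻¹ ∈ S) ∧ l.prod = u

theorem avgG_vanish (S : Finset G) (r : ℕ) (ψ : G → ℝ) (h : ∀ u, InBall S (r + 1) u → ψ u = 0)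
    (u : G) (hu : InBall S r u) : avgG S ψ u = 0 := by
  obtain ⟨l, hl, hl2, rfl⟩ := hu
  change (1 / (2 * S.card : ℝ)) * ∑ s ∈ S, (ψ (s * l.prod) + ψ (s⁻¹ * l.prod)) = 0
  rw [Finset.sum_eq_zero, mul_zero]
  intro s hs
  rw [h (s * l.prod) ⟨s :: l, by simpa using hl, ?_, by simp⟩,
    h (s⁻¹ * l.prod) ⟨s⁻¹ :: l, by simpa using hl, ?_, by simp⟩, add_zero]
  · intro x hx
    rcases List.mem_cons.1 hx with rfl | hx
    · right; rwa [inv_inv]
    · exact hl2 x hx
  · intro x hx
    rcases List.mem_cons.1 hx with rfl | hx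
    · left; exact hs
    · exact hl2 x hx

theorem aeval_vanish (S : Finset G) (r : ℕ) (ψ : G → ℝ) (h : ∀ u, InBall S r u → ψ u = 0)
    (q : ℝ[X]) (hq : q.natDegree ≤ r) : aeval (avgG S) q ψ 1 = 0 := by
  have h1 : ∀ i ≤ r, ∀ u, InBall S (r - i) u → ((avgG S ^ i) ψ) u = 0 := by
    intro i
    induction i with
    | zero => intro _ u hu; simpa using h u hu
    | succ i ih =>
      intro hi u hu
      rw [pow_succ', Module.End.mul_apply]
      refine avgG_vanish S (r - (i + 1)) _ (fun v hv => ih (by omega) v ?_) u hu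
      rwa [show r - (i + 1) + 1 = r - i by omega] at hv
  rw [aeval_eq_sum_range]
  simp only [LinearMap.sum_apply, LinearMap.smul_apply, Finset.sum_apply, Pi.smul_apply,
    smul_eq_mul]
  refine Finset.sum_eq_zero fun i hi => ?_
  have hi' : i ≤ r := by have := Finset.mem_range.1 hi; omega
  rw [h1 i hi' 1 ⟨[], by simp, by simp, by simp⟩, mul_zero]

theorem aeval_one (S : Finset G) (hS : S.Nonempty) (q : ℝ[X]) :
    aeval (avgG S) q (fun _ => (1 : ℝ)) = fun _ => q.eval 1 := by
  have hn : (S.card : ℝ) ≠ 0 := by exact_mod_cast hS.card_pos.ne'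
  have h1 : avgG S (fun _ => (1 : ℝ)) = fun _ => (1 : ℝ) := by
    funext u
    change (1 / (2 * S.card : ℝ)) * ∑ s ∈ S, ((1 : ℝ) + 1) = 1
    rw [Finset.sum_const, nsmul_eq_mul]
    field_simp
    norm_num
  induction q using Polynomial.induction_on' with
  | add p q hp hq =>
    simp only [map_add, LinearMap.add_apply, hp, hq, eval_add]
    rfl
  | monomial n a =>
    have h2 : (avgG S ^ n) (fun _ => (1 : ℝ)) = fun _ => (1 : ℝ) := by
      induction n with
      | zero => rfl
      | succ n ih => rw [pow_succ', Module.End.mul_apply, ih, h1]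
    simp only [aeval_monomial, Module.End.mul_apply, Module.algebraMap_end_apply, h2,
      eval_monomial, one_pow, mul_one]
    funext u
    simp

end Fun

end Pool.Agent.H7.Coset
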